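import Pool.Agent.H20.LIM.Targets

/-!
# Module LSUB: the sub-mean value property of a limit
-/

set_option autoImplicit false

open Complex MeasureTheory Set Filter Topology Metric

namespace Pool.Agent.H50.LIM

open Pool.Agent.H20.LIM

lemma ball_sub {c : ℂ} {r R : ℝ} (h : ‖c‖ + r ≤ R) : closedBall c r ⊆ closedBall (0 : ℂ) R := by
  intro w hw
  rw [mem_closedBall, dist_eq_norm] at hw
  rw [mem_closedBall, dist_zero_right]
  calc ‖w‖ = ‖(w - c) + c‖ := by rw [sub_add_cancel]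
    _ ≤ ‖w - c‖ + ‖c‖ := norm_add_le _ _
    _ ≤ R := by linarith

lemma av_div (r : ℝ) (g : ℂ → ℝ) (l : ℝ) (z : ℂ) :
    av r (fun w => g w / l) z = av r g z / l := by
  unfold av
  rw [setAverage_eq, setAverage_eq, integral_div, smul_eq_mul, smul_eq_mul, mul_div_assoc]

/-- for large `k` the normalised logarithms are integrable on a disc -/
lemma int_ev (hSM : T_SM) {f : ℕ → ℂ → ℂ} {Λ : ℕ → ℝ}
    (hf : ∀ R : ℝ, ∀ᶠ k in atTop, AnalyticOnNhd ℂ (f k) (closedBall 0 R) ∧
      ∀ᵐ z : ℂ, ‖z‖ ≤ R → f k z ≠ 0) (R : ℝ) (hR : 0 < R) :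
    ∀ᶠ k in atTop, IntegrableOn (fun z => Real.log ‖f k z‖ / Λ k) (closedBall 0 R) := by
  filter_upwards [hf (R + 3)] with k hk
  obtain ⟨h1, h2⟩ := hk
  obtain ⟨c, hc, hc0⟩ : ∃ c ∈ ball (0 : ℂ) 1, f k c ≠ 0 := by
    by_contra hcon
    push Not at hcon
    have h3 : volume (ball (0 : ℂ) 1) = 0 := by
      refine measure_mono_null ?_ (ae_iff.1 h2)
      intro c hc
      have h4 : ‖c‖ < 1 := by simpa using hc
      simp only [mem_ofPred_eq, Classical.not_imp, not_not]
      exact ⟨by linarith, hcon c hc⟩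
    exact (measure_ball_pos volume (0 : ℂ) one_pos).ne' h3
  have hc1 : ‖c‖ < 1 := by simpa using hc
  have h3 := (hSM (f k) c (R + 1) (by linarith) (h1.mono (ball_sub (by linarith))) hc0).1
  have h4 : closedBall (0 : ℂ) R ⊆ closedBall c (R + 1) := by
    intro w hw
    rw [mem_closedBall, dist_zero_right] at hw
    rw [mem_closedBall, dist_eq_norm]
    calc ‖w - c‖ ≤ ‖w‖ + ‖c‖ := norm_sub_le _ _
      _ ≤ R + 1 := by linarith
  exact (h3.mono_set h4).div_const _

theorem pf_lsub (hSM : T_SM) : T_LSUB := by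
  intro f Λ u hΛ hf hu
  obtain ⟨hum, hconv⟩ := hu
  have hint : ∀ R : ℝ, 0 < R → IntegrableOn u (closedBall 0 R) := by
    intro R hR
    have h1 : ∀ᶠ k in atTop, ∫⁻ z in closedBall (0 : ℂ) R,
        ‖Real.log ‖f k z‖ / Λ k - u z‖ₑ < 1 := (hconv R).eventually_lt_const (by norm_num)
    obtain ⟨k, hk1, hk2⟩ := (h1.and (int_ev hSM (Λ := Λ) hf R hR)).exists
    have h2 : IntegrableOn (fun z => Real.log ‖f k z‖ / Λ k - u z) (closedBall 0 R) :=
      ⟨hk2.aestronglyMeasurable.sub hum.restrict, hk1.trans ENNReal.one_lt_top⟩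
    have h3 := hk2.sub h2
    refine h3.congr (ae_of_all _ fun z => ?_)
    simp
  have hloc : LocallyIntegrable u volume := by
    intro x
    refine ⟨closedBall 0 (‖x‖ + 1), ?_, hint _ (by positivity)⟩
    refine mem_of_superset (isOpen_ball.mem_nhds (x := x) (s := ball 0 (‖x‖ + 1)) ?_)
      ball_subset_closedBall
    simp
  refine ⟨hloc, fun r hr => ?_⟩
  suffices h : ∀ n : ℕ, ∀ᵐ z : ℂ, ‖z‖ ≤ (n : ℝ) + 1 → u z ≤ av r u z by
    filter_upwards [ae_all_iff.2 h] with z hz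
    exact hz ⌈‖z‖⌉₊ ((Nat.le_ceil _).trans (by linarith))
  intro n
  set R : ℝ := (n : ℝ) + 1 with hR
  have hR0 : 0 < R := by positivity
  have hgood : ∀ᶠ k in atTop, 0 < Λ k ∧ (AnalyticOnNhd ℂ (f k) (closedBall 0 (R + r)) ∧
      ∀ᵐ z : ℂ, ‖z‖ ≤ R + r → f k z ≠ 0) ∧
      IntegrableOn (fun z => Real.log ‖f k z‖ / Λ k) (closedBall 0 (R + r)) :=
    hΛ.and ((hf (R + r)).and (int_ev hSM hf (R + r) (by positivity)))
  obtain ⟨k₀, hk₀⟩ := eventually_atTop.1 hgood
  -- convergence almost everywhere of a subsequence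
  have hconv' : Tendsto (fun j => ∫⁻ z in closedBall (0 : ℂ) (R + r),
      ‖Real.log ‖f (j + k₀) z‖ / Λ (j + k₀) - u z‖ₑ) atTop (𝓝 0) :=
    (hconv (R + r)).comp (tendsto_add_atTop_nat k₀)
  have hmeas : TendstoInMeasure (volume.restrict (closedBall (0 : ℂ) (R + r)))
      (fun j z => Real.log ‖f (j + k₀) z‖ / Λ (j + k₀)) atTop u := by
    refine tendstoInMeasure_of_tendsto_eLpNorm (p := 1) one_ne_zero ?_ hum.restrict ?_
    · intro j
      exact (hk₀ (j + k₀) (Nat.le_add_left _ _)).2.2.aestronglyMeasurable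
    · refine hconv'.congr fun j => ?_
      rw [eLpNorm_one_eq_lintegral_enorm]
      rfl
  obtain ⟨ns, hns, hae⟩ := hmeas.exists_seq_tendsto_ae
  have hnz : ∀ᵐ z : ℂ, ∀ j, ‖z‖ ≤ R + r → f (j + k₀) z ≠ 0 := by
    rw [ae_all_iff]
    intro j
    exact (hk₀ (j + k₀) (Nat.le_add_left _ _)).2.1.2
  rw [ae_restrict_iff' measurableSet_closedBall] at hae
  filter_upwards [hae, hnz] with z hz1 hz2 hzR
  have hz3 := hz1 (by rw [mem_closedBall, dist_zero_right]; linarith)
  have hsub : closedBall z r ⊆ closedBall (0 : ℂ) (R + r) := ball_sub (by linarith)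
  have hsub' : ball z r ⊆ closedBall (0 : ℂ) (R + r) := ball_subset_closedBall.trans hsub
  -- the averages converge
  have hav : Tendsto (fun j => av r (fun w => Real.log ‖f (j + k₀) w‖ / Λ (j + k₀)) z) atTop
      (𝓝 (av r u z)) := by
    unfold av
    simp only [setAverage_eq]
    refine Tendsto.const_smul ?_ _
    refine tendsto_integral_of_L1 u
      ((hint (R + r) (by positivity)).mono_set hsub').aestronglyMeasurable ?_ ?_
    · refine Eventually.of_forall fun j => ?_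
      exact (hk₀ (j + k₀) (Nat.le_add_left _ _)).2.2.mono_set hsub'
    · refine tendsto_of_tendsto_of_tendsto_of_le_of_le tendsto_const_nhds hconv'
        (fun _ => zero_le) fun j => ?_
      exact lintegral_mono_set hsub'
  refine le_of_tendsto_of_tendsto' hz3 (hav.comp hns.tendsto_atTop) fun i => ?_
  obtain ⟨hl, ⟨han, -⟩, -⟩ := hk₀ (ns i + k₀) (Nat.le_add_left _ _)
  have h6 := (hSM (f (ns i + k₀)) z r hr (han.mono hsub) (hz2 (ns i) (by linarith))).2
  show _ ≤ av r (fun w => Real.log ‖f (ns i + k₀) w‖ / Λ (ns i + k₀)) z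
  rw [av_div]
  exact div_le_div_of_nonneg_right h6 hl.le

end Pool.Agent.H50.LIM
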